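import Mathlib
import Pool.Agent.Lib.MP_e60a9a_co.Sanity

/-!
# `MP_e60a9a_co`, Q2: a non-real zero

For `n = 16`, `μ = (8, 8)` and `λ = (2⁸)` the polynomial `∑ a_k(μ, λ) z^k` is
`2090188800 z (286 + 35038 z + 958976 z² + 9240610 z³ + 38111080 z⁴ + 73942876 z⁵ + 70179928 z⁶
  + 32657731 z⁷ + 7283070 z⁸ + 750200 z⁹ + 32780 z¹⁰ + 385 z¹¹)`,
which has the non-real zeros `-10.529… ± 2.391… i`.
-/

namespace Pool.Agent.Results.MP_e60a9a_co.NonRealZero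

open Pool.Agent.Lib.MP_e60a9a_co

theorem result :
    ∃ μ lam : (16 : ℕ).Partition, μ.parts = {8, 8} ∧ lam.parts = {2, 2, 2, 2, 2, 2, 2, 2} ∧
    ∃ P : SymF (RatFunc ℚ), IsJack (RatFunc.X)⁻¹ μ P ∧
      (∀ P' : SymF (RatFunc ℚ), IsJack (RatFunc.X)⁻¹ μ P' → P' = P) ∧
      (∀ Q : (16 : ℕ).Partition → SymF (RatFunc ℚ), IsJackFamily (RatFunc.X)⁻¹ Q → Q μ = P) ∧
      ∃ a : Fin 16 → ℚ,
        pair 1 (Jtilde RatFunc.X μ P) (schur lam) =
          ∑ k : Fin 16, RatFunc.C (a k) * binom (RatFunc.X + ((k : ℕ) : RatFunc ℚ)) 16 ∧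
        (∀ b : Fin 16 → ℚ, pair 1 (Jtilde RatFunc.X μ P) (schur lam) =
          ∑ k : Fin 16, RatFunc.C (b k) * binom (RatFunc.X + ((k : ℕ) : RatFunc ℚ)) 16 → b = a) ∧
        a = (fun k => 2090188800 * (![0, 286, 35038, 958976, 9240610, 38111080, 73942876,
          70179928, 32657731, 7283070, 750200, 32780, 385, 0, 0, 0] k : ℚ)) ∧
        ∃ z : ℂ, z.im ≠ 0 ∧ ∑ k : Fin 16, (a k : ℂ) * z ^ (k : ℕ) = 0 := by
  obtain ⟨ι, hι⟩ := exists_embedding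
  set θ : RatFunc ℚ := RatFunc.X with hθdef
  have hθ0 : θ ≠ 0 := RatFunc.X_ne_zero
  have hβ : θ⁻¹ * θ = 1 := inv_mul_cancel₀ hθ0
  have hne : ∀ x : RatFunc ℚ, 0 < ι x → x ≠ 0 := by
    rintro x hx rfl
    rw [map_zero] at hx
    exact lt_irrefl _ hx
  have hθ : ∀ j : ℕ, θ + 1 + j ≠ 0 := by
    intro j
    apply hne
    rw [map_add, map_add, map_one, map_natCast]
    positivity
  have hθ1 : ∀ j : ℕ, θ + j ≠ 0 := by
    intro j
    apply hne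
    rw [map_add, map_natCast]
    positivity
  have hθ2 : ∀ j : ℕ, 2 * θ + j ≠ 0 := by
    intro j
    apply hne
    rw [map_add, map_mul, map_natCast, map_ofNat]
    positivity
  have hβpos : 0 < ι θ⁻¹ := by
    rw [map_inv₀]
    positivity
  have hk : kap θ ≠ 0 := by
    rw [kap_eq θ hθ]
    exact div_ne_zero (mul_ne_zero (poch_ne hθ1 8) (poch_ne hθ2 8))
      (mul_ne_zero (fac_ne 8) (poch_ne hθ 8))
  refine ⟨⟨{8, 8}, by decide, by decide⟩, ⟨{2, 2, 2, 2, 2, 2, 2, 2}, by decide, by decide⟩,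
    rfl, rfl, P0 θ, ?_⟩
  set μ : (16 : ℕ).Partition := ⟨{8, 8}, by decide, by decide⟩ with hμdef
  set lam : (16 : ℕ).Partition := ⟨{2, 2, 2, 2, 2, 2, 2, 2}, by decide, by decide⟩ with hldef
  have hμ : μ.parts = Multiset.replicate 2 8 := rfl
  have hlam : lam.parts = Multiset.replicate 8 2 := rfl
  have hJ : IsJack θ⁻¹ μ (P0 θ) := isJack_P0 θ θ⁻¹ hβ hθ hk μ hμ
  refine ⟨hJ, fun P' hP' => hP'.unique ι hβpos hJ, fun Q hQ => (hQ.isJack μ).unique ι hβpos hJ,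
    fun k => 2090188800 * (bco k : ℚ), ?_, ?_, ?_, exists_nonreal⟩
  · rw [pair_P0 θ θ⁻¹ hβ hθ hk μ hμ lam hlam]
    refine Finset.sum_congr rfl fun k _ => ?_
    simp
  · intro b hb
    apply coords_unique
    rw [← hb, pair_P0 θ θ⁻¹ hβ hθ hk μ hμ lam hlam]
    refine Finset.sum_congr rfl fun k _ => ?_
    simp [hθdef]
  · funext k
    fin_cases k <;> simp [bco]

end Pool.Agent.Results.MP_e60a9a_co.NonRealZero
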